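import Pool.Agent.BEF.Stmts

set_option autoImplicit false

/-!
# BEF, row GSM: the size of the derivative of the power map
-/

namespace Pool.Agent.BEF.H77

open Pool.Agent.BEF
open Pool.Agent.BE01

theorem gsm_pm {X : Type} [NormedCommRing X] (x y : X) (k : ℕ) :
    ‖x ^ k * y‖ ≤ ‖x‖ ^ k * ‖y‖ := by
  induction k with
  | zero => simp
  | succ k ih =>
    have e : x ^ (k + 1) * y = x * (x ^ k * y) := by ring
    rw [e]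
    calc ‖x * (x ^ k * y)‖ ≤ ‖x‖ * ‖x ^ k * y‖ := norm_mul_le _ _
      _ ≤ ‖x‖ * (‖x‖ ^ k * ‖y‖) := mul_le_mul_of_nonneg_left ih (norm_nonneg _)
      _ = ‖x‖ ^ (k + 1) * ‖y‖ := by ring

/-- **GSM** -/
theorem gsm : GsmStmt := by
  intro X _ _ p s w0 w1 w2 hp hs
  obtain ⟨q, rfl⟩ : ∃ q, p = q + 1 := ⟨p - 1, by omega⟩
  have h0 : ‖w0‖ ≤ s := by linarith [norm_nonneg w1, norm_nonneg w2]
  have h1 : ‖w1‖ ≤ s := by linarith [norm_nonneg w0, norm_nonneg w2]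
  have h2 : ‖w2‖ ≤ s := by linarith [norm_nonneg w0, norm_nonneg w1]
  have hs0 : 0 ≤ s := (norm_nonneg _).trans h0
  have e1 : 2 * (q + 1) + 1 - 1 = 2 * q + 2 := by omega
  have e2 : 2 * (q + 1) + 1 - 2 = 2 * q + 1 := by omega
  have e3 : 2 * (q + 1) + 1 - 3 = 2 * q := by omega
  have e4 : 2 * (q + 1) = 2 * q + 2 := by omega
  have hq : (0 : ℝ) ≤ q := Nat.cast_nonneg q
  unfold gsz
  rw [e1, e2, e3]
  push_cast
  have b1 : ‖w0 ^ (2 * q + 2)‖ ≤ s ^ (2 * q + 2) :=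
    (norm_pow_le' w0 (by omega)).trans (pow_le_pow_left₀ (norm_nonneg _) h0 _)
  have b2 : ‖w0 ^ (2 * q + 1) * w1‖ ≤ s ^ (2 * q + 2) := by
    refine (gsm_pm w0 w1 _).trans ?_
    calc ‖w0‖ ^ (2 * q + 1) * ‖w1‖ ≤ s ^ (2 * q + 1) * s :=
          mul_le_mul (pow_le_pow_left₀ (norm_nonneg _) h0 _) h1 (norm_nonneg _) (by positivity)
      _ = s ^ (2 * q + 2) := by ring
  have b3 : ‖w0 ^ (2 * q + 1) * w2‖ ≤ s ^ (2 * q + 2) := by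
    refine (gsm_pm w0 w2 _).trans ?_
    calc ‖w0‖ ^ (2 * q + 1) * ‖w2‖ ≤ s ^ (2 * q + 1) * s :=
          mul_le_mul (pow_le_pow_left₀ (norm_nonneg _) h0 _) h2 (norm_nonneg _) (by positivity)
      _ = s ^ (2 * q + 2) := by ring
  have b4 : ‖w0 ^ (2 * q) * w1 ^ 2‖ ≤ s ^ (2 * q + 2) := by
    refine (gsm_pm w0 (w1 ^ 2) _).trans ?_
    have h3 : ‖w1 ^ 2‖ ≤ s ^ 2 :=
      (norm_pow_le' w1 (by omega)).trans (pow_le_pow_left₀ (norm_nonneg _) h1 _)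
    calc ‖w0‖ ^ (2 * q) * ‖w1 ^ 2‖ ≤ s ^ (2 * q) * s ^ 2 :=
          mul_le_mul (pow_le_pow_left₀ (norm_nonneg _) h0 _) h3 (norm_nonneg _) (by positivity)
      _ = s ^ (2 * q + 2) := by ring
  have a1 : ‖(2 * ((q : ℝ) + 1) + 1) • w0 ^ (2 * q + 2)‖ ≤
      (2 * ((q : ℝ) + 1) + 1) * s ^ (2 * q + 2) := by
    rw [norm_smul, Real.norm_of_nonneg (by positivity)]
    exact mul_le_mul_of_nonneg_left b1 (by positivity)
  have a2 : ‖((2 * ((q : ℝ) + 1) + 1) * (2 * ((q : ℝ) + 1) + 1 - 1)) • (w0 ^ (2 * q + 1) * w1)‖ ≤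
      ((2 * ((q : ℝ) + 1) + 1) * (2 * ((q : ℝ) + 1) + 1 - 1)) * s ^ (2 * q + 2) := by
    have hc : 0 ≤ (2 * ((q : ℝ) + 1) + 1) * (2 * ((q : ℝ) + 1) + 1 - 1) :=
      mul_nonneg (by linarith) (by linarith)
    rw [norm_smul, Real.norm_of_nonneg hc]
    exact mul_le_mul_of_nonneg_left b2 hc
  have a3 : ‖((2 * ((q : ℝ) + 1) + 1) * (2 * ((q : ℝ) + 1) + 1 - 1)) • (w0 ^ (2 * q + 1) * w2)‖ ≤
      ((2 * ((q : ℝ) + 1) + 1) * (2 * ((q : ℝ) + 1) + 1 - 1)) * s ^ (2 * q + 2) := by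
    have hc : 0 ≤ (2 * ((q : ℝ) + 1) + 1) * (2 * ((q : ℝ) + 1) + 1 - 1) :=
      mul_nonneg (by linarith) (by linarith)
    rw [norm_smul, Real.norm_of_nonneg hc]
    exact mul_le_mul_of_nonneg_left b3 hc
  have a4 : ‖((2 * ((q : ℝ) + 1) + 1) * (2 * ((q : ℝ) + 1) + 1 - 1) *
      (2 * ((q : ℝ) + 1) + 1 - 2)) • (w0 ^ (2 * q) * w1 ^ 2)‖ ≤
      ((2 * ((q : ℝ) + 1) + 1) * (2 * ((q : ℝ) + 1) + 1 - 1) *
      (2 * ((q : ℝ) + 1) + 1 - 2)) * s ^ (2 * q + 2) := by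
    have hc : 0 ≤ (2 * ((q : ℝ) + 1) + 1) * (2 * ((q : ℝ) + 1) + 1 - 1) *
        (2 * ((q : ℝ) + 1) + 1 - 2) :=
      mul_nonneg (mul_nonneg (by linarith) (by linarith)) (by linarith)
    rw [norm_smul, Real.norm_of_nonneg hc]
    exact mul_le_mul_of_nonneg_left b4 hc
  have a5 := norm_add_le
    (((2 * ((q : ℝ) + 1) + 1) * (2 * ((q : ℝ) + 1) + 1 - 1)) • (w0 ^ (2 * q + 1) * w2))
    (((2 * ((q : ℝ) + 1) + 1) * (2 * ((q : ℝ) + 1) + 1 - 1) *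
      (2 * ((q : ℝ) + 1) + 1 - 2)) • (w0 ^ (2 * q) * w1 ^ 2))
  rw [e4]
  generalize s ^ (2 * q + 2) = S at *
  have hfin : (2 * ((q : ℝ) + 1) + 1) * S +
      2 * (((2 * ((q : ℝ) + 1) + 1) * (2 * ((q : ℝ) + 1) + 1 - 1)) * S) +
      (((2 * ((q : ℝ) + 1) + 1) * (2 * ((q : ℝ) + 1) + 1 - 1)) * S +
      ((2 * ((q : ℝ) + 1) + 1) * (2 * ((q : ℝ) + 1) + 1 - 1) *
      (2 * ((q : ℝ) + 1) + 1 - 2)) * S) = (2 * ((q : ℝ) + 1) + 1) ^ 3 * S := by ring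
  rw [← hfin]
  linarith

end Pool.Agent.BEF.H77
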